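import Mathlib
import Pool.Agent.CSPHier.StabCsp
import Pool.Agent.CSPBir.StabB

set_option autoImplicit false

namespace Pool.Agent.Results.MP_181555_al.StabilizerCongruence

open Pool.Agent.CSPHier Pool.Agent.CSPBir

/-- The automorphisms of the free group that act on `F / K` as an inner automorphism
(for a characteristic subgroup `K` this is the preimage in `Aut F` of the kernel of
`Out F → Out (F / K)`). -/
def congr {n : ℕ} (K : Subgroup (FreeGroup (Fin n))) : Set (MulAut (FreeGroup (Fin n))) :=
  {ψ | ∃ g : FreeGroup (Fin n), ∀ x : FreeGroup (Fin n), ψ x * (g * x * g⁻¹)⁻¹ ∈ K}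

/-- The free factor `⟨x_0, …, x_{j-1}⟩` of the free group on `x_0, …, x_{n-1}`. -/
def low (n j : ℕ) : Subgroup (FreeGroup (Fin n)) :=
  Subgroup.closure {x | ∃ i : Fin n, (i : ℕ) < j ∧ x = FreeGroup.of i}

/-- The automorphisms sending `x_0`, `x_1` into `⟨x_0, x_1⟩` and, for every `i ≥ 2`, `x_i` to
`u x_i v` or `u x_i⁻¹ v` with `u`, `v` in `⟨x_0, …, x_{i-1}⟩`. -/
def IsTri {n : ℕ} (φ : MulAut (FreeGroup (Fin n))) : Prop :=
  (∀ i : Fin n, (i : ℕ) < 2 → φ (FreeGroup.of i) ∈ low n 2) ∧
  ∀ i : Fin n, 2 ≤ (i : ℕ) → ∃ u ∈ low n i, ∃ v ∈ low n i,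
    φ (FreeGroup.of i) = u * FreeGroup.of i * v ∨ φ (FreeGroup.of i) = u * (FreeGroup.of i)⁻¹ * v

theorem low_mono {n i j : ℕ} (h : i ≤ j) : low n i ≤ low n j := by
  refine Subgroup.closure_mono ?_
  rintro x ⟨k, hk, rfl⟩
  exact ⟨k, lt_of_lt_of_le hk h, rfl⟩

theorem of_mem_low {n j : ℕ} {i : Fin n} (h : (i : ℕ) < j) : FreeGroup.of i ∈ low n j :=
  Subgroup.subset_closure ⟨i, h, rfl⟩

theorem low_top {n j : ℕ} (h : n ≤ j) : low n j = ⊤ := by
  rw [eq_top_iff, ← FreeGroup.closure_range_of, Subgroup.closure_le]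
  rintro x ⟨i, rfl⟩
  exact of_mem_low (lt_of_lt_of_le i.isLt h)

theorem IsTri.maps {n : ℕ} {φ : MulAut (FreeGroup (Fin n))} (h : IsTri φ) {j : ℕ} (hj : 2 ≤ j) :
    ∀ x ∈ low n j, φ x ∈ low n j := by
  have h1 : low n j ≤ (low n j).comap (φ : FreeGroup (Fin n) →* FreeGroup (Fin n)) := by
    rw [low, Subgroup.closure_le]
    rintro x ⟨i, hi, rfl⟩
    change φ (FreeGroup.of i) ∈ low n j
    by_cases h2 : (i : ℕ) < 2
    · exact low_mono hj (h.1 i h2)
    · obtain ⟨u, hu, v, hv, h3 | h3⟩ := h.2 i (not_lt.mp h2)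
      · rw [h3]
        exact mul_mem (mul_mem (low_mono hi.le hu) (of_mem_low hi)) (low_mono hi.le hv)
      · rw [h3]
        exact mul_mem (mul_mem (low_mono hi.le hu) (inv_mem (of_mem_low hi))) (low_mono hi.le hv)
  exact fun x hx => h1 hx

/-- Automorphisms of this form map each `⟨x_0, …, x_{j-1}⟩`, `j ≥ 2`, onto itself. -/
theorem IsTri.onto {n : ℕ} {φ : MulAut (FreeGroup (Fin n))} (h : IsTri φ) :
    ∀ m j : ℕ, n ≤ j + m → 2 ≤ j → ∀ y ∈ low n j, ∃ x ∈ low n j, φ x = y := by
  intro m
  induction m with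
  | zero =>
    intro j hj _ y _
    obtain ⟨x, hx⟩ := φ.surjective y
    refine ⟨x, ?_, hx⟩
    rw [low_top (by omega)]
    trivial
  | succ m ih =>
    intro j hj h2 y hy
    by_cases hn : n ≤ j
    · obtain ⟨x, hx⟩ := φ.surjective y
      refine ⟨x, ?_, hx⟩
      rw [low_top hn]
      trivial
    · have hj' : j < n := not_le.mp hn
      obtain ⟨u, hu, v, hv, huv⟩ := h.2 ⟨j, hj'⟩ h2
      obtain ⟨x, hx, hxy⟩ := ih (j + 1) (by omega) (by omega) y (low_mono (Nat.le_succ j) hy)
      -- the retraction
      obtain ⟨z, hz⟩ : ∃ z : FreeGroup (Fin n),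
          (φ (FreeGroup.of ⟨j, hj'⟩) = u * FreeGroup.of ⟨j, hj'⟩ * v ∧ z = u⁻¹ * v⁻¹) ∨
          (φ (FreeGroup.of ⟨j, hj'⟩) = u * (FreeGroup.of ⟨j, hj'⟩)⁻¹ * v ∧ z = v * u) := by
        rcases huv with huv | huv
        · exact ⟨_, Or.inl ⟨huv, rfl⟩⟩
        · exact ⟨_, Or.inr ⟨huv, rfl⟩⟩
      obtain ⟨r, hr⟩ : ∃ r : FreeGroup (Fin n) →* FreeGroup (Fin n),
          r = FreeGroup.lift (fun i => if i = ⟨j, hj'⟩ then z else FreeGroup.of i) := ⟨_, rfl⟩
      have hr1 : r (FreeGroup.of ⟨j, hj'⟩) = z := by
        rw [hr, FreeGroup.lift_apply_of, if_pos rfl]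
      have hr2 : ∀ w ∈ low n j, r w = w := by
        have h3 : low n j ≤ MonoidHom.eqLocus r (MonoidHom.id _) := by
          rw [low, Subgroup.closure_le]
          rintro w ⟨i, hi, rfl⟩
          change r (FreeGroup.of i) = FreeGroup.of i
          rw [hr, FreeGroup.lift_apply_of, if_neg]
          intro h4
          rw [h4] at hi
          exact lt_irrefl _ hi
        exact fun w hw => h3 hw
      have hr3 : r (φ (FreeGroup.of ⟨j, hj'⟩)) = 1 := by
        rcases hz with ⟨h3, h4⟩ | ⟨h3, h4⟩
        · rw [h3, map_mul, map_mul, hr1, hr2 u hu, hr2 v hv, h4]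
          group
        · rw [h3, map_mul, map_mul, map_inv, hr1, hr2 u hu, hr2 v hv, h4]
          group
      have h5 : low n (j + 1) ≤ ((low n j).map (φ : FreeGroup (Fin n) →* FreeGroup (Fin n))).comap
          (r.comp (φ : FreeGroup (Fin n) →* FreeGroup (Fin n))) := by
        rw [low, Subgroup.closure_le]
        rintro w ⟨i, hi, rfl⟩
        change r (φ (FreeGroup.of i)) ∈ (low n j).map (φ : FreeGroup (Fin n) →* FreeGroup (Fin n))
        rcases Nat.lt_succ_iff_lt_or_eq.mp hi with h6 | h6
        · have h7 : FreeGroup.of i ∈ low n j := of_mem_low h6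
          rw [hr2 _ (h.maps h2 _ h7)]
          exact ⟨_, h7, rfl⟩
        · have h7 : i = ⟨j, hj'⟩ := Fin.ext h6
          rw [h7, hr3]
          exact one_mem _
      obtain ⟨w, hw, hw2⟩ := h5 hx
      refine ⟨w, hw, ?_⟩
      have h6 : φ w = r (φ x) := hw2
      rw [h6, hxy, hr2 y hy]

theorem IsTri.one {n : ℕ} : IsTri (1 : MulAut (FreeGroup (Fin n))) :=
  ⟨fun i hi => of_mem_low hi, fun i _ => ⟨1, one_mem _, 1, one_mem _, Or.inl (by simp)⟩⟩

theorem IsTri.mul {n : ℕ} {φ ψ : MulAut (FreeGroup (Fin n))} (h : IsTri φ) (h' : IsTri ψ) :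
    IsTri (φ * ψ) := by
  refine ⟨fun i hi => h.maps le_rfl _ (h'.1 i hi), fun i hi => ?_⟩
  obtain ⟨u, hu, v, hv, h1⟩ := h.2 i hi
  obtain ⟨u', hu', v', hv', h2⟩ := h'.2 i hi
  have hu2 := h.maps hi _ hu'
  have hv2 := h.maps hi _ hv'
  rw [MulAut.mul_apply]
  rcases h2 with h2 | h2
  · rcases h1 with h1 | h1
    · refine ⟨_, mul_mem hu2 hu, _, mul_mem hv hv2, Or.inl ?_⟩
      rw [h2, map_mul, map_mul, h1]
      simp only [mul_assoc]
    · refine ⟨_, mul_mem hu2 hu, _, mul_mem hv hv2, Or.inr ?_⟩
      rw [h2, map_mul, map_mul, h1]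
      simp only [mul_assoc]
  · rcases h1 with h1 | h1
    · refine ⟨_, mul_mem hu2 (inv_mem hv), _, mul_mem (inv_mem hu) hv2, Or.inr ?_⟩
      rw [h2, map_mul, map_mul, map_inv, h1]
      group
    · refine ⟨_, mul_mem hu2 (inv_mem hv), _, mul_mem (inv_mem hu) hv2, Or.inl ?_⟩
      rw [h2, map_mul, map_mul, map_inv, h1]
      group

theorem IsTri.inv_low {n : ℕ} {φ : MulAut (FreeGroup (Fin n))} (h : IsTri φ) {j : ℕ}
    (hj : 2 ≤ j) : ∀ x ∈ low n j, φ⁻¹ x ∈ low n j := by
  intro x hx
  obtain ⟨y, hy, rfl⟩ := h.onto n j (by omega) hj x hx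
  rwa [MulAut.inv_apply_self]

theorem IsTri.inv {n : ℕ} {φ : MulAut (FreeGroup (Fin n))} (h : IsTri φ) : IsTri φ⁻¹ := by
  refine ⟨fun i hi => h.inv_low le_rfl _ (of_mem_low hi), fun i hi => ?_⟩
  obtain ⟨u, hu, v, hv, h1⟩ := h.2 i hi
  have hu2 := h.inv_low hi _ hu
  have hv2 := h.inv_low hi _ hv
  rcases h1 with h1 | h1
  · refine ⟨_, inv_mem hu2, _, inv_mem hv2, Or.inl ?_⟩
    have h2 : FreeGroup.of i = φ⁻¹ (u * FreeGroup.of i * v) := by
      rw [← h1, MulAut.inv_apply_self]
    rw [map_mul, map_mul] at h2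
    nth_rewrite 2 [h2]
    group
  · refine ⟨_, hv2, _, hu2, Or.inr ?_⟩
    have h2 : FreeGroup.of i = φ⁻¹ (u * (FreeGroup.of i)⁻¹ * v) := by
      rw [← h1, MulAut.inv_apply_self]
    rw [map_mul, map_mul, map_inv] at h2
    nth_rewrite 2 [h2]
    group

/-- The stabilizer `P_n` of the flag `⟨x_0, x_1⟩ < ⟨x_0, x_1, x_2⟩ < … < F_n`: the automorphisms
that are, up to an inner automorphism, of the form described in `IsTri`. -/
def flag (n : ℕ) : Subgroup (MulAut (FreeGroup (Fin n))) where
  carrier := {φ | ∃ g : FreeGroup (Fin n), IsTri (MulAut.conj g * φ)}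
  one_mem' := ⟨1, by rw [map_one, one_mul]; exact IsTri.one⟩
  mul_mem' := by
    rintro a b ⟨g, hg⟩ ⟨h, hh⟩
    refine ⟨g * a h, ?_⟩
    have h1 : MulAut.conj (g * a h) * (a * b) = (MulAut.conj g * a) * (MulAut.conj h * b) := by
      ext1 x
      change g * a h * a (b x) * (g * a h)⁻¹ = g * a (h * b x * h⁻¹) * g⁻¹
      rw [map_mul, map_mul, map_inv]
      group
    rw [h1]
    exact hg.mul hh
  inv_mem' := by
    rintro a ⟨g, hg⟩
    refine ⟨a⁻¹ g⁻¹, ?_⟩
    have h1 : MulAut.conj (a⁻¹ g⁻¹) * a⁻¹ = (MulAut.conj g * a)⁻¹ := by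
      rw [eq_inv_iff_mul_eq_one]
      ext1 x
      change a⁻¹ g⁻¹ * a⁻¹ (g * a x * g⁻¹) * (a⁻¹ g⁻¹)⁻¹ = x
      rw [map_mul, map_mul, map_inv, MulAut.inv_apply_self]
      group
    rw [h1]
    exact hg.inv

theorem mem_flag {n : ℕ} {φ : MulAut (FreeGroup (Fin n))} :
    φ ∈ flag n ↔ ∃ g : FreeGroup (Fin n), IsTri (MulAut.conj g * φ) := Iff.rfl

/-- The inclusion of `F_k` into `F_{k+1}`. -/
def inc (k : ℕ) : FreeGroup (Fin k) →* FreeGroup (Fin (k + 1)) := FreeGroup.map Fin.castSucc

theorem inc_injective (k : ℕ) : Function.Injective (inc k) :=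
  FreeGroup.map_injective (Fin.castSucc_injective k)

theorem inc_of {k : ℕ} (i : Fin k) : inc k (FreeGroup.of i) = FreeGroup.of i.castSucc :=
  FreeGroup.map.of

theorem map_low {k j : ℕ} (hj : j ≤ k) : (low k j).map (inc k) = low (k + 1) j := by
  rw [low, MonoidHom.map_closure, low]
  congr 1
  ext x
  constructor
  · rintro ⟨y, ⟨i, hi, rfl⟩, rfl⟩
    exact ⟨i.castSucc, hi, inc_of i⟩
  · rintro ⟨i, hi, rfl⟩
    have h1 : (i : ℕ) < k := lt_of_lt_of_le hi hj
    exact ⟨FreeGroup.of ⟨i, h1⟩, ⟨⟨i, h1⟩, hi, rfl⟩, inc_of _⟩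

theorem inc_mem_low {k j : ℕ} (hj : j ≤ k) {x : FreeGroup (Fin k)} :
    inc k x ∈ low (k + 1) j ↔ x ∈ low k j := by
  rw [← map_low hj, Subgroup.mem_map_iff_mem (inc_injective k)]

theorem mem_flag_succ {k : ℕ} (hk : 2 ≤ k) (φ : MulAut (FreeGroup (Fin (k + 1)))) :
    φ ∈ flag (k + 1) ↔ ∃ α ∈ flag k, ∃ (g : FreeGroup (Fin (k + 1))) (u v : FreeGroup (Fin k)),
      (∀ w : FreeGroup (Fin k), φ (inc k w) = g * inc k (α w) * g⁻¹) ∧
      (φ (FreeGroup.of (Fin.last k)) = g * (inc k u * FreeGroup.of (Fin.last k) * inc k v) * g⁻¹ ∨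
       φ (FreeGroup.of (Fin.last k)) =
        g * (inc k u * (FreeGroup.of (Fin.last k))⁻¹ * inc k v) * g⁻¹) := by
  constructor
  · rintro ⟨g, hg⟩
    obtain ⟨ψ, hψ⟩ : ∃ ψ, ψ = MulAut.conj g * φ := ⟨_, rfl⟩
    rw [← hψ] at hg
    have hφ : ∀ x, φ x = g⁻¹ * ψ x * g⁻¹⁻¹ := by
      intro x
      rw [hψ, MulAut.mul_apply, MulAut.conj_apply]
      group
    have hl : (low k k).map (inc k) = low (k + 1) k := map_low le_rfl
    rw [low_top le_rfl] at hl
    have hin : ∀ x : FreeGroup (Fin k), inc k x ∈ low (k + 1) k := fun x => by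
      rw [← hl]; exact ⟨x, trivial, rfl⟩
    have hex : ∀ x ∈ low (k + 1) k, ∃ y, inc k y = x := fun x hx => by
      rw [← hl] at hx
      obtain ⟨y, -, hy⟩ := hx
      exact ⟨y, hy⟩
    choose f hf using fun x : FreeGroup (Fin k) => hex _ (hg.maps hk _ (hin x))
    choose f' hf' using fun x : FreeGroup (Fin k) => hex _ (hg.inv_low hk _ (hin x))
    obtain ⟨α, hα⟩ : ∃ α : MulAut (FreeGroup (Fin k)), ∀ x, inc k (α x) = ψ (inc k x) := by
      refine ⟨{ toFun := f, invFun := f', left_inv := ?_, right_inv := ?_, map_mul' := ?_ }, hf⟩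
      · intro x
        apply inc_injective k
        rw [hf', hf, MulAut.inv_apply_self]
      · intro x
        apply inc_injective k
        rw [hf, hf', MulAut.apply_inv_self]
      · intro x y
        apply inc_injective k
        rw [hf, map_mul, map_mul, map_mul, hf, hf]
    have hαt : IsTri α := by
      refine ⟨fun i hi => ?_, fun i hi => ?_⟩
      · rw [← inc_mem_low hk, hα, inc_of]
        exact hg.1 _ hi
      · obtain ⟨u, hu, v, hv, huv⟩ := hg.2 i.castSucc hi
        have hik : ((i.castSucc : Fin (k + 1)) : ℕ) ≤ k := i.isLt.le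
        obtain ⟨u', rfl⟩ := hex u (low_mono hik hu)
        obtain ⟨v', rfl⟩ := hex v (low_mono hik hv)
        refine ⟨u', (inc_mem_low hik).mp hu, v', (inc_mem_low hik).mp hv, ?_⟩
        rcases huv with huv | huv
        · left
          apply inc_injective k
          rw [hα, inc_of, huv, map_mul, map_mul, inc_of]
        · right
          apply inc_injective k
          rw [hα, inc_of, huv, map_mul, map_mul, map_inv, inc_of]
    obtain ⟨u, hu, v, hv, huv⟩ := hg.2 (Fin.last k) hk
    obtain ⟨u', rfl⟩ := hex u hu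
    obtain ⟨v', rfl⟩ := hex v hv
    refine ⟨α, ⟨1, by rwa [map_one, one_mul]⟩, g⁻¹, u', v', fun w => ?_, ?_⟩
    · rw [hφ, hα]
    · rcases huv with huv | huv
      · left
        rw [hφ, huv]
      · right
        rw [hφ, huv]
  · rintro ⟨α, ⟨h, hα⟩, g, u, v, h1, h2⟩
    -- `φ = conj (g ι(h)⁻¹) φ'`
    refine ⟨inc k h * g⁻¹, fun i hi => ?_, fun i hi => ?_⟩
    · have hi' : (i : ℕ) < k := lt_of_lt_of_le hi hk
      have h3 : FreeGroup.of i = inc k (FreeGroup.of ⟨i, hi'⟩) :=
        (inc_of (⟨i, hi'⟩ : Fin k)).symm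
      have h4 : (MulAut.conj (inc k h * g⁻¹) * φ) (FreeGroup.of i) =
          inc k ((MulAut.conj h * α) (FreeGroup.of ⟨i, hi'⟩)) := by
        rw [h3, MulAut.mul_apply, MulAut.conj_apply, h1, MulAut.mul_apply, MulAut.conj_apply,
          map_mul, map_mul, map_inv]
        group
      rw [h4, inc_mem_low hk]
      exact hα.1 _ hi
    · by_cases hik : (i : ℕ) < k
      · have h3 : FreeGroup.of i = inc k (FreeGroup.of ⟨i, hik⟩) :=
          (inc_of (⟨i, hik⟩ : Fin k)).symm
        have h4 : (MulAut.conj (inc k h * g⁻¹) * φ) (FreeGroup.of i) =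
            inc k ((MulAut.conj h * α) (FreeGroup.of ⟨i, hik⟩)) := by
          rw [h3, MulAut.mul_apply, MulAut.conj_apply, h1, MulAut.mul_apply, MulAut.conj_apply,
            map_mul, map_mul, map_inv]
          group
        obtain ⟨u', hu', v', hv', h5⟩ := hα.2 ⟨i, hik⟩ hi
        refine ⟨inc k u', (inc_mem_low hik.le).mpr hu', inc k v', (inc_mem_low hik.le).mpr hv', ?_⟩
        rw [h4, h3]
        rcases h5 with h5 | h5
        · left
          rw [h5, map_mul, map_mul]
        · right
          rw [h5, map_mul, map_mul, map_inv]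
      · have h3 : i = Fin.last k := Fin.ext (le_antisymm (Nat.lt_succ_iff.mp i.isLt) (not_lt.mp hik))
        have hin : ∀ x : FreeGroup (Fin k), inc k x ∈ low (k + 1) (i : ℕ) := fun x => by
          refine low_mono (not_lt.mp hik) ?_
          rw [← map_low le_rfl, low_top le_rfl]
          exact ⟨x, trivial, rfl⟩
        refine ⟨inc k (h * u), hin _, inc k (v * h⁻¹), hin _, ?_⟩
        rw [MulAut.mul_apply, MulAut.conj_apply, h3]
        rcases h2 with h2 | h2
        · left
          rw [h2, map_mul, map_mul, map_inv]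
          group
        · right
          rw [h2, map_mul, map_mul, map_inv]
          group

/-- A group `P` of automorphisms of `F_n` has the congruence subgroup property in `Out F_n`: if `H`
is a group of automorphisms that contains the inner automorphisms and whose intersection with `P`
has finite index in `P`, there is a characteristic subgroup `K` of finite index in `F_n` such that
`H` contains every element of `P` that acts on `F_n / K` as an inner automorphism. -/
def HasCsp {n : ℕ} (P : Subgroup (MulAut (FreeGroup (Fin n)))) : Prop :=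
  ∀ H : Subgroup (MulAut (FreeGroup (Fin n))), (∀ g : FreeGroup (Fin n), MulAut.conj g ∈ H) →
    (H.subgroupOf P).FiniteIndex →
    ∃ K : Subgroup (FreeGroup (Fin n)), K.Characteristic ∧ K.FiniteIndex ∧
      ∀ φ ∈ P, φ ∈ congr K → φ ∈ H

/-- Mapping class groups of surfaces with a distinguished boundary component, fixing the boundary
word `d` of this component, as groups of automorphisms of the (free) fundamental group:
* `twist`: the group generated by the boundary twist (the conjugation by `d`), for the boundary word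
  `d` of any compact surface;
* `torus`: all automorphisms fixing `[a, b]` in the free group on `a`, `b` (the mapping class group
  of the torus with one boundary component);
* `birman`: the extension of a group `P` of the family by the point pushing group: the products of a
  push `p c` and of the extension by the identity of an element of `P`, the new surface having one
  more puncture `t = of none` and the boundary word `d t`. -/
inductive SurfaceGroup : (X : Type) → FreeGroup X → Subgroup (MulAut (FreeGroup X)) → Prop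
  | twist {X : Type} {d : FreeGroup X} (hd : SurfaceWord X d) :
      SurfaceGroup X d (Subgroup.zpowers (MulAut.conj d))
  | torus : SurfaceGroup Bool handD (fixer handD)
  | birman {X : Type} {d : FreeGroup X} {P : Subgroup (MulAut (FreeGroup X))}
      (h : SurfaceGroup X d P) (p : FreeGroup X →* MulAut (FreeGroup (Option X)))
      (hp : IsPush d p) (Q : Subgroup (MulAut (FreeGroup (Option X))))
      (hQ : ∀ φ : MulAut (FreeGroup (Option X)), φ ∈ Q ↔
        ∃ (c : FreeGroup X) (β : MulAut (FreeGroup X)), β ∈ P ∧ φ = p c * extO β) :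
      SurfaceGroup (Option X) (FreeGroup.map some d * FreeGroup.of none) Q

/-- A family of groups of automorphisms of free groups, all containing the inner automorphisms:
* the whole automorphism group of a free group of rank at most two;
* if `θ` identifies the free product of the nontrivial free groups `FreeGroup X` and `FreeGroup Y`
  with `FreeGroup Z` and `A`, `B` belong to the family: the group of the automorphisms that are, up
  to an inner automorphism, the free product of an element of `A` and an element of `B`;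
* if `θ` identifies the free product of the nontrivial free group `FreeGroup X` and an infinite
  cyclic group (free on `Option X`, the generator of the cyclic group being `none`) with
  `FreeGroup Z` and `A` belongs to the family: the group of the automorphisms that are, up to an
  inner automorphism, an element of `A` on the first factor and send the generator `t` of the second
  one to `u t v` or `u t⁻¹ v` with `u`, `v` in the first factor;
* if `θ` identifies `FreeGroup (Option X)` with `FreeGroup Z` and `P` is one of the mapping class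
  groups of `SurfaceGroup`: the group of the automorphisms that are, up to an inner automorphism,
  elements of the Birman extension of `P`;
* if `ι` identifies `FreeGroup Z` with a subgroup of finite index of `FreeGroup X` and `A` belongs to
  the family: the group of the restrictions of elements of `A` preserving this subgroup. -/
inductive Stabilizer : (Z : Type) → Subgroup (MulAut (FreeGroup Z)) → Prop
  | small {Z : Type} [Finite Z] (hZ : Nat.card Z ≤ 2) : Stabilizer Z ⊤
  | split {X Y Z : Type} [Nonempty X] [Nonempty Y] (θ : FreeGroup (X ⊕ Y) ≃* FreeGroup Z)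
      (A : Subgroup (MulAut (FreeGroup X))) (B : Subgroup (MulAut (FreeGroup Y)))
      (P : Subgroup (MulAut (FreeGroup Z))) (hA : Stabilizer X A) (hB : Stabilizer Y B)
      (hP : ∀ φ : MulAut (FreeGroup Z), φ ∈ P ↔ ∃ α ∈ A, ∃ β ∈ B, ∃ g : FreeGroup Z,
        (∀ w : FreeGroup X, φ (θ (FreeGroup.map Sum.inl w)) =
          g * θ (FreeGroup.map Sum.inl (α w)) * g⁻¹) ∧
        (∀ w : FreeGroup Y, φ (θ (FreeGroup.map Sum.inr w)) =
          g * θ (FreeGroup.map Sum.inr (β w)) * g⁻¹)) :
      Stabilizer Z P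
  | loop {X Z : Type} [Nonempty X] (θ : FreeGroup (Option X) ≃* FreeGroup Z)
      (A : Subgroup (MulAut (FreeGroup X))) (P : Subgroup (MulAut (FreeGroup Z)))
      (hA : Stabilizer X A)
      (hP : ∀ φ : MulAut (FreeGroup Z), φ ∈ P ↔
        ∃ α ∈ A, ∃ (g : FreeGroup Z) (u v : FreeGroup X),
        (∀ w : FreeGroup X, φ (θ (FreeGroup.map some w)) =
          g * θ (FreeGroup.map some (α w)) * g⁻¹) ∧
        (φ (θ (FreeGroup.of none)) =
            g * θ (FreeGroup.map some u * FreeGroup.of none * FreeGroup.map some v) * g⁻¹ ∨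
          φ (θ (FreeGroup.of none)) =
            g * θ (FreeGroup.map some u * (FreeGroup.of none)⁻¹ * FreeGroup.map some v) * g⁻¹)) :
      Stabilizer Z P
  | surface {X Z : Type} (θ : FreeGroup (Option X) ≃* FreeGroup Z) (d : FreeGroup X)
      (A : Subgroup (MulAut (FreeGroup X))) (hA : SurfaceGroup X d A)
      (p : FreeGroup X →* MulAut (FreeGroup (Option X))) (hp : IsPush d p)
      (P : Subgroup (MulAut (FreeGroup Z)))
      (hP : ∀ φ : MulAut (FreeGroup Z), φ ∈ P ↔
        ∃ (g : FreeGroup Z) (c : FreeGroup X) (β : MulAut (FreeGroup X)), β ∈ A ∧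
          ∀ w : FreeGroup (Option X), φ (θ w) = g * θ (p c (extO β w)) * g⁻¹) :
      Stabilizer Z P
  | cover {X Z : Type} [Finite Z] (ι : FreeGroup Z →* FreeGroup X) (hι : Function.Injective ι)
      (hfi : ι.range.FiniteIndex) (A : Subgroup (MulAut (FreeGroup X)))
      (P : Subgroup (MulAut (FreeGroup Z))) (hA : Stabilizer X A)
      (hP : ∀ φ : MulAut (FreeGroup Z), φ ∈ P ↔ ∃ α ∈ A, ∀ w : FreeGroup Z, ι (φ w) = α (ι w)) :
      Stabilizer Z P

theorem finite_of_surfaceWord {X : Type} {d : FreeGroup X} (h : SurfaceWord X d) : Finite X := by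
  induction h with
  | disc => infer_instance
  | hole => infer_instance
  | crosscap => infer_instance
  | handle => infer_instance
  | sum _ _ h1 h2 =>
    have := h1
    have := h2
    infer_instance

theorem surfaceGroup_facts {X : Type} {d : FreeGroup X} {P : Subgroup (MulAut (FreeGroup X))}
    (h : SurfaceGroup X d P) :
    Finite X ∧ (∀ β ∈ P, β d = d) ∧ MulAut.conj d ∈ P ∧ Csp X P := by
  induction h with
  | @twist X d hd =>
    have hfin := finite_of_surfaceWord hd
    refine ⟨hfin, ?_, Subgroup.mem_zpowers _, csp_twist (deep_of_surfaceWord hd)⟩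
    intro β hβ
    obtain ⟨j, rfl⟩ := Subgroup.mem_zpowers_iff.mp hβ
    rw [← map_zpow, MulAut.conj_apply]
    group
  | torus =>
    refine ⟨inferInstance, fun β hβ => hβ, ?_, csp_torus⟩
    rw [mem_fixer, MulAut.conj_apply, mul_inv_cancel_right]
  | @birman X d P _ p hp Q hQ ih =>
    obtain ⟨h1, h2, h3, h4⟩ := ih
    refine ⟨inferInstance, ?_, ?_, csp_birman P h4 d p hp Q hQ⟩
    · intro β hβ
      obtain ⟨c, γ, hγ, rfl⟩ := (hQ β).mp hβ
      have h5 : extO γ (FreeGroup.map some d * FreeGroup.of none) =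
          FreeGroup.map some d * FreeGroup.of none := by
        rw [map_mul, extO_some, extO_none, h2 γ hγ]
      rw [MulAut.mul_apply, h5, hp.fixes]
    · rw [hQ]
      refine ⟨d⁻¹, MulAut.conj d, h3, ?_⟩
      have h5 : extO (MulAut.conj d) =
          MulAut.conj (FreeGroup.map some d * FreeGroup.of none) * p d := by
        rw [hp.full, mul_inv_cancel_left]
      have h6 : Commute (MulAut.conj (FreeGroup.map some d * FreeGroup.of none)) (p d) := by
        change MulAut.conj _ * p d = p d * MulAut.conj _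
        ext1 w
        rw [MulAut.mul_apply, MulAut.mul_apply, MulAut.conj_apply, MulAut.conj_apply,
          map_mul (p d) _ _, map_mul (p d) _ w, map_inv (p d), hp.fixes]
      rw [h5, h6.eq, map_inv, inv_mul_cancel_left]

theorem finite_of_stabilizer {Z : Type} {P : Subgroup (MulAut (FreeGroup Z))}
    (h : Stabilizer Z P) : Finite Z := by
  induction h with
  | small => assumption
  | split θ A B P _ _ _ h1 h2 =>
    have := h1
    have := h2
    exact Finite.of_equiv _ (Equiv.ofFreeGroupEquiv θ)
  | loop θ A P _ _ h1 =>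
    have := h1
    exact Finite.of_equiv _ (Equiv.ofFreeGroupEquiv θ)
  | surface θ d A hA p hp P _ =>
    have := (surfaceGroup_facts hA).1
    exact Finite.of_equiv _ (Equiv.ofFreeGroupEquiv θ)
  | cover => assumption

theorem conj_mem {Z : Type} {P : Subgroup (MulAut (FreeGroup Z))} (h : Stabilizer Z P) :
    ∀ g : FreeGroup Z, MulAut.conj g ∈ P := by
  induction h with
  | small => intro g; trivial
  | split θ A B _ _ _ hP =>
    intro g
    rw [hP]
    exact ⟨1, one_mem _, 1, one_mem _, g, fun w => rfl, fun w => rfl⟩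
  | loop θ A _ _ hP =>
    intro g
    rw [hP]
    exact ⟨1, one_mem _, g, 1, 1, fun w => rfl, Or.inl (by simp)⟩
  | surface θ d A hA p hp P hP =>
    intro g
    rw [hP]
    refine ⟨g, 1, 1, one_mem _, fun w => ?_⟩
    rw [map_one, map_one]
    rfl
  | cover ι hι hfi A P hA hP ih =>
    intro g
    rw [hP]
    refine ⟨MulAut.conj (ι g), ih _, fun w => ?_⟩
    rw [MulAut.conj_apply, MulAut.conj_apply, map_mul, map_mul, map_inv]

theorem csp_of_stabilizer {Z : Type} {P : Subgroup (MulAut (FreeGroup Z))}
    (h : Stabilizer Z P) : Csp Z P := by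
  induction h with
  | small hZ => exact csp_small hZ
  | @split X Y Z _ _ θ A B P hA hB hP ihA ihB =>
    have := finite_of_stabilizer hA
    have := finite_of_stabilizer hB
    refine csp_transport θ (P.comap (MulAut.congr θ).toMonoidHom) P (fun _ => Iff.rfl) ?_
    refine csp_split A B ihA ihB _ ?_
    intro φ
    have h1 : φ ∈ P.comap (MulAut.congr θ).toMonoidHom ↔ MulAut.congr θ φ ∈ P := Iff.rfl
    rw [h1, hP]
    constructor
    · rintro ⟨α, hα, β, hβ, g, h2, h3⟩
      refine ⟨α, hα, β, hβ, θ.symm g, fun w => ?_, fun w => ?_⟩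
      · have h4 : θ (φ (θ.symm (θ (FreeGroup.map Sum.inl w)))) = _ := h2 w
        rw [MulEquiv.symm_apply_apply] at h4
        apply θ.injective
        rw [h4, map_mul, map_mul, map_inv, MulEquiv.apply_symm_apply]
      · have h4 : θ (φ (θ.symm (θ (FreeGroup.map Sum.inr w)))) = _ := h3 w
        rw [MulEquiv.symm_apply_apply] at h4
        apply θ.injective
        rw [h4, map_mul, map_mul, map_inv, MulEquiv.apply_symm_apply]
    · rintro ⟨α, hα, β, hβ, g, h2, h3⟩
      refine ⟨α, hα, β, hβ, θ g, fun w => ?_, fun w => ?_⟩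
      · change θ (φ (θ.symm (θ (FreeGroup.map Sum.inl w)))) = _
        rw [MulEquiv.symm_apply_apply, h2, map_mul, map_mul, map_inv]
      · change θ (φ (θ.symm (θ (FreeGroup.map Sum.inr w)))) = _
        rw [MulEquiv.symm_apply_apply, h3, map_mul, map_mul, map_inv]
  | @loop X Z _ θ A P hA hP ihA =>
    have := finite_of_stabilizer hA
    refine csp_transport θ (P.comap (MulAut.congr θ).toMonoidHom) P (fun _ => Iff.rfl) ?_
    refine csp_loop A ihA (conj_mem hA) _ ?_
    intro φ
    have h1 : φ ∈ P.comap (MulAut.congr θ).toMonoidHom ↔ MulAut.congr θ φ ∈ P := Iff.rfl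
    rw [h1, hP]
    constructor
    · rintro ⟨α, hα, g, u, v, h2, h3⟩
      refine ⟨α, hα, θ.symm g, u, v, fun w => ?_, ?_⟩
      · have h4 : θ (φ (θ.symm (θ (FreeGroup.map some w)))) = _ := h2 w
        rw [MulEquiv.symm_apply_apply] at h4
        apply θ.injective
        rw [h4, map_mul, map_mul, map_inv, MulEquiv.apply_symm_apply]
      · rcases h3 with h3 | h3
        · left
          have h4 : θ (φ (θ.symm (θ (FreeGroup.of none)))) = _ := h3
          rw [MulEquiv.symm_apply_apply] at h4
          apply θ.injective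
          rw [h4]
          simp only [map_mul, map_inv, MulEquiv.apply_symm_apply]
        · right
          have h4 : θ (φ (θ.symm (θ (FreeGroup.of none)))) = _ := h3
          rw [MulEquiv.symm_apply_apply] at h4
          apply θ.injective
          rw [h4]
          simp only [map_mul, map_inv, MulEquiv.apply_symm_apply]
    · rintro ⟨α, hα, g, u, v, h2, h3⟩
      refine ⟨α, hα, θ g, u, v, fun w => ?_, ?_⟩
      · change θ (φ (θ.symm (θ (FreeGroup.map some w)))) = _
        rw [MulEquiv.symm_apply_apply, h2, map_mul, map_mul, map_inv]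
      · rcases h3 with h3 | h3
        · left
          change θ (φ (θ.symm (θ (FreeGroup.of none)))) = _
          rw [MulEquiv.symm_apply_apply, h3, map_mul θ, map_mul θ, map_inv θ]
        · right
          change θ (φ (θ.symm (θ (FreeGroup.of none)))) = _
          rw [MulEquiv.symm_apply_apply, h3, map_mul θ, map_mul θ, map_inv θ]
  | @surface X Z θ d A hA p hp P hP =>
    obtain ⟨hfin, hAd, hcd, hcsp⟩ := surfaceGroup_facts hA
    refine csp_transport θ (P.comap (MulAut.congr θ).toMonoidHom) P (fun _ => Iff.rfl) ?_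
    refine csp_birman_inner A hcsp d hAd hcd p hp _ ?_
    intro φ
    have h1 : φ ∈ P.comap (MulAut.congr θ).toMonoidHom ↔ MulAut.congr θ φ ∈ P := Iff.rfl
    rw [h1, hP]
    constructor
    · rintro ⟨g, c, β, hβ, h2⟩
      refine ⟨θ.symm g, c, β, hβ, ?_⟩
      ext1 w
      have h3 : θ (φ (θ.symm (θ w))) = _ := h2 w
      rw [MulEquiv.symm_apply_apply] at h3
      apply θ.injective
      rw [h3, MulAut.mul_apply, MulAut.mul_apply, MulAut.conj_apply, map_mul, map_mul, map_inv,
        MulEquiv.apply_symm_apply]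
    · rintro ⟨g, c, β, hβ, rfl⟩
      refine ⟨θ g, c, β, hβ, fun w => ?_⟩
      change θ ((MulAut.conj g * (p c * extO β)) (θ.symm (θ w))) = _
      rw [MulEquiv.symm_apply_apply, MulAut.mul_apply, MulAut.mul_apply, MulAut.conj_apply,
        map_mul, map_mul, map_inv]
  | @cover X Z _ ι hι hfi A P hA hP ihA =>
    have := finite_of_stabilizer hA
    rcases subsingleton_or_nontrivial X with hX | hX
    · have : Subsingleton Z := by
        apply freeGroup_comm_subsingleton
        intro a b
        apply hι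
        rw [map_mul, map_mul, comm_of_subsingleton]
      exact csp_subsingleton P
    · obtain ⟨z0, z1, hz⟩ := exists_pair_ne X
      exact csp_cover z0 z1 hz ι hι hfi A ihA P hP

theorem stabilizer_flag : ∀ n : ℕ, Stabilizer (Fin n) (flag n) := by
  intro n
  induction n with
  | zero =>
    have h1 : flag 0 = ⊤ := by
      rw [eq_top_iff]
      exact fun φ _ => ⟨1, fun i => i.elim0, fun i => i.elim0⟩
    rw [h1]
    exact Stabilizer.small (by simp)
  | succ k ih =>
    by_cases hk : 2 ≤ k
    · have hne : Nonempty (Fin k) := ⟨⟨0, by omega⟩⟩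
      have hs : ∀ w : FreeGroup (Fin k), FreeGroup.freeGroupCongr finSuccEquivLast.symm
          (FreeGroup.map some w) = inc k w := by
        intro w
        change FreeGroup.map (finSuccEquivLast.symm : Option (Fin k) → Fin (k + 1))
          (FreeGroup.map some w) = FreeGroup.map Fin.castSucc w
        rw [FreeGroup.map.comp]
        have h0 : (finSuccEquivLast.symm : Option (Fin k) → Fin (k + 1)) ∘ some = Fin.castSucc :=
          funext fun i => finSuccEquivLast_symm_some i
        rw [h0]
      have hl : FreeGroup.freeGroupCongr finSuccEquivLast.symm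
          (FreeGroup.of (none : Option (Fin k))) = FreeGroup.of (Fin.last k) := by
        change FreeGroup.map (finSuccEquivLast.symm : Option (Fin k) → Fin (k + 1))
          (FreeGroup.of none) = _
        rw [FreeGroup.map.of, finSuccEquivLast_symm_none]
      refine Stabilizer.loop (FreeGroup.freeGroupCongr finSuccEquivLast.symm) (flag k)
        (flag (k + 1)) ih ?_
      intro φ
      rw [mem_flag_succ hk]
      simp only [map_mul, map_inv, hs, hl]
    · have h1 : flag (k + 1) = ⊤ := by
        rw [eq_top_iff]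
        refine fun φ _ => ⟨1, fun i _ => ?_, fun i hi => ?_⟩
        · rw [low_top (by omega)]; trivial
        · exfalso
          have := i.isLt
          omega
      rw [h1]
      exact Stabilizer.small (by simp; omega)

/-- **General form.** The groups of the family have the congruence subgroup property in `Out F_n`:
if `H` is a group of automorphisms which contains the inner automorphisms and whose intersection
with a group `P` of the family has finite index in `P`, there is a characteristic subgroup `K` of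
finite index in `F_n` such that `H` contains every element of `P` that acts on `F_n / K` as an inner
automorphism. -/
theorem general (n : ℕ) (P H : Subgroup (MulAut (FreeGroup (Fin n)))) (hP : Stabilizer (Fin n) P)
    (hH : (H.subgroupOf P).FiniteIndex) (hinn : ∀ g : FreeGroup (Fin n), MulAut.conj g ∈ H) :
    ∃ K : Subgroup (FreeGroup (Fin n)), K.Characteristic ∧ K.FiniteIndex ∧
      ∀ φ ∈ P, φ ∈ congr K → φ ∈ H := by
  obtain ⟨m, hm⟩ := csp_of_stabilizer hP H hH.index_ne_zero
  refine ⟨L (FreeGroup (Fin n)) m, inferInstance, inferInstance, ?_⟩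
  rintro φ hφ ⟨g, hg⟩
  have h1 : MulAut.conj g⁻¹ * φ ∈ H := by
    refine hm _ (mul_mem (conj_mem hP _) hφ) ?_
    rw [mem_cong]
    intro x
    rw [MulAut.mul_apply, MulAut.conj_apply]
    have h2 := (L_normal m).conj_mem _ (hg x) g⁻¹
    have h3 : g⁻¹ * (φ x * (g * x * g⁻¹)⁻¹) * g⁻¹⁻¹ = g⁻¹ * φ x * g⁻¹⁻¹ * x⁻¹ := by group
    rwa [h3] at h2
  have h2 : φ = MulAut.conj g * (MulAut.conj g⁻¹ * φ) := by
    rw [← mul_assoc, ← map_mul, mul_inv_cancel, map_one, one_mul]
  rw [h2]
  exact mul_mem (hinn g) h1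

/-- **Main theorem.** The stabilizer `flag n` of the flag of free factors
`⟨x_0, x_1⟩ < ⟨x_0, x_1, x_2⟩ < … < F_n` has the congruence subgroup property in `Out F_n`, and so
has every group of the family `Stabilizer` (to which `flag n` belongs, `stabilizer_flag`). -/
theorem result (n : ℕ) : HasCsp (flag n) ∧
    ∀ P : Subgroup (MulAut (FreeGroup (Fin n))), Stabilizer (Fin n) P → HasCsp P :=
  ⟨fun H h1 h2 => general n (flag n) H (stabilizer_flag n) h2 h1,
    fun P hP H h1 h2 => general n P H hP h2 h1⟩

end Pool.Agent.Results.MP_181555_al.StabilizerCongruence
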