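import Mathlib
import Pool.Agent.CSPHier.Split
import Pool.Agent.CSPHier.Asada
import Pool.Agent.CSPBir.Push
import Pool.Agent.CSPBir.Down

set_option autoImplicit false

namespace Pool.Agent.Results.MP_181555_al.ConstructibleCongruence

open Pool.Agent.CSPHier Pool.Agent.CSPBir

/-- The automorphisms of the free group that act on `F / K` as an inner automorphism
(for a characteristic subgroup `K` this is the preimage in `Aut F` of the kernel of
`Out F → Out (F / K)`). -/
def congr {n : ℕ} (K : Subgroup (FreeGroup (Fin n))) : Set (MulAut (FreeGroup (Fin n))) :=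
  {ψ | ∃ g : FreeGroup (Fin n), ∀ x : FreeGroup (Fin n), ψ x * (g * x * g⁻¹)⁻¹ ∈ K}

/-- The constructible automorphisms of free groups: the least class of automorphisms of free groups
such that
* every automorphism of a free group of rank at most two is constructible;
* (free products) if `θ` identifies the free product of the nontrivial free groups `FreeGroup X`
  and `FreeGroup Y` (free on the disjoint union `X ⊕ Y`) with `FreeGroup Z`, then `φ` is
  constructible if it is, up to an inner automorphism, the free product of constructible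
  automorphisms `α` and `β` of the two factors;
* (loops) if `θ` identifies the free product of `FreeGroup X` and an infinite cyclic group (free on
  `Option X`, the generator `t` of the cyclic group being `none`) with `FreeGroup Z`, then `φ` is
  constructible if it is, up to an inner automorphism, a constructible automorphism `α` on the first
  factor and sends `t` to `u t v` or `u t⁻¹ v` with `u`, `v` in the first factor;
* (point pushing, Birman extensions) let `p` be a homomorphism from `FreeGroup X` to the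
  automorphism group of `FreeGroup (Option X)` that pushes the point `t` relative to a boundary
  element `d` of `FreeGroup X` (see `IsPush`; such a `p` exists for the boundary words `d` of all
  compact surfaces, see `Pool.Agent.CSPBir.exists_push_of_surfaceWord`); if the constructible
  automorphism `β` of `FreeGroup X` fixes `d`, then `φ` is constructible if it is, up to an inner
  automorphism and the identification `θ`, the product of `p c` and of the extension of `β` that
  fixes `t`;
* (covers) if `ι` identifies `FreeGroup Z` with a subgroup of finite index of `FreeGroup X`, then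
  `φ` is constructible if it is the restriction of a constructible automorphism `α` of
  `FreeGroup X`. -/
inductive Constructible : (Z : Type) → MulAut (FreeGroup Z) → Prop
  | small {Z : Type} [Finite Z] (hZ : Nat.card Z ≤ 2) (φ : MulAut (FreeGroup Z)) :
      Constructible Z φ
  | split {X Y Z : Type} [Nonempty X] [Nonempty Y] (θ : FreeGroup (X ⊕ Y) ≃* FreeGroup Z)
      (α : MulAut (FreeGroup X)) (β : MulAut (FreeGroup Y)) (φ : MulAut (FreeGroup Z))
      (g : FreeGroup Z) (hα : Constructible X α) (hβ : Constructible Y β)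
      (hφX : ∀ w : FreeGroup X, φ (θ (FreeGroup.map Sum.inl w)) =
        g * θ (FreeGroup.map Sum.inl (α w)) * g⁻¹)
      (hφY : ∀ w : FreeGroup Y, φ (θ (FreeGroup.map Sum.inr w)) =
        g * θ (FreeGroup.map Sum.inr (β w)) * g⁻¹) :
      Constructible Z φ
  | loop {X Z : Type} (θ : FreeGroup (Option X) ≃* FreeGroup Z)
      (α : MulAut (FreeGroup X)) (φ : MulAut (FreeGroup Z)) (g : FreeGroup Z)
      (u v : FreeGroup X) (hα : Constructible X α)
      (hφX : ∀ w : FreeGroup X, φ (θ (FreeGroup.map some w)) =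
        g * θ (FreeGroup.map some (α w)) * g⁻¹)
      (hφt : φ (θ (FreeGroup.of none)) =
          g * θ (FreeGroup.map some u * FreeGroup.of none * FreeGroup.map some v) * g⁻¹ ∨
        φ (θ (FreeGroup.of none)) =
          g * θ (FreeGroup.map some u * (FreeGroup.of none)⁻¹ * FreeGroup.map some v) * g⁻¹) :
      Constructible Z φ
  | push {X Z : Type} (θ : FreeGroup (Option X) ≃* FreeGroup Z)
      (d : FreeGroup X) (p : FreeGroup X →* MulAut (FreeGroup (Option X))) (hp : IsPush d p)
      (c : FreeGroup X) (β : MulAut (FreeGroup X)) (φ : MulAut (FreeGroup Z)) (g : FreeGroup Z)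
      (hβ : Constructible X β) (hβd : β d = d)
      (hφ : ∀ w : FreeGroup (Option X), φ (θ w) = g * θ (p c (extO β w)) * g⁻¹) :
      Constructible Z φ
  | cover {X Z : Type} [Finite Z] (ι : FreeGroup Z →* FreeGroup X) (hι : Function.Injective ι)
      (hfi : ι.range.FiniteIndex) (α : MulAut (FreeGroup X)) (φ : MulAut (FreeGroup Z))
      (hα : Constructible X α) (hφ : ∀ w : FreeGroup Z, ι (φ w) = α (ι w)) :
      Constructible Z φ

theorem finite_of_constructible {Z : Type} {φ : MulAut (FreeGroup Z)} (h : Constructible Z φ) :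
    Finite Z := by
  induction h with
  | small => assumption
  | split θ α β φ g _ _ _ _ h1 h2 =>
    have := h1
    have := h2
    exact Finite.of_equiv _ (Equiv.ofFreeGroupEquiv θ)
  | loop θ α φ g u v _ _ _ h1 =>
    have := h1
    exact Finite.of_equiv _ (Equiv.ofFreeGroupEquiv θ)
  | push θ d p hp c β φ g _ _ _ h1 =>
    have := h1
    exact Finite.of_equiv _ (Equiv.ofFreeGroupEquiv θ)
  | cover => assumption

theorem constructible_congr {Z Z' : Type} (ψ : FreeGroup Z ≃* FreeGroup Z')
    {φ : MulAut (FreeGroup Z)} (h : Constructible Z φ) :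
    Constructible Z' (MulAut.congr ψ φ) := by
  have hfinZ : Finite Z := finite_of_constructible h
  have hfinZ' : Finite Z' := Finite.of_equiv _ (Equiv.ofFreeGroupEquiv ψ)
  cases h with
  | small hZ =>
    exact .small (by rw [← Nat.card_congr (Equiv.ofFreeGroupEquiv ψ)]; exact hZ) _
  | split θ α β _ g hα hβ hφX hφY =>
    refine .split (θ.trans ψ) α β _ (ψ g) hα hβ ?_ ?_
    · intro w
      change ψ (φ (ψ.symm (ψ (θ _)))) = _
      rw [MulEquiv.symm_apply_apply, hφX, map_mul, map_mul, map_inv]
      rfl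
    · intro w
      change ψ (φ (ψ.symm (ψ (θ _)))) = _
      rw [MulEquiv.symm_apply_apply, hφY, map_mul, map_mul, map_inv]
      rfl
  | loop θ α _ g u v hα hφX hφt =>
    refine .loop (θ.trans ψ) α _ (ψ g) u v hα ?_ ?_
    · intro w
      change ψ (φ (ψ.symm (ψ (θ _)))) = _
      rw [MulEquiv.symm_apply_apply, hφX, map_mul, map_mul, map_inv]
      rfl
    · rcases hφt with hφt | hφt
      · left
        change ψ (φ (ψ.symm (ψ (θ _)))) = _
        rw [MulEquiv.symm_apply_apply, hφt, map_mul, map_mul, map_inv]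
        rfl
      · right
        change ψ (φ (ψ.symm (ψ (θ _)))) = _
        rw [MulEquiv.symm_apply_apply, hφt, map_mul, map_mul, map_inv]
        rfl
  | push θ d p hp c β _ g hβ hβd hφ =>
    refine .push (θ.trans ψ) d p hp c β _ (ψ g) hβ hβd ?_
    intro w
    change ψ (φ (ψ.symm (ψ (θ _)))) = _
    rw [MulEquiv.symm_apply_apply, hφ, map_mul, map_mul, map_inv]
    rfl
  | cover ι hι hfi α _ hα hφ =>
    have hran : (ι.comp ψ.symm.toMonoidHom).range = ι.range := by
      ext x
      constructor
      · rintro ⟨w, rfl⟩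
        exact ⟨ψ.symm w, rfl⟩
      · rintro ⟨w, rfl⟩
        refine ⟨ψ w, ?_⟩
        change ι (ψ.symm (ψ w)) = _
        rw [MulEquiv.symm_apply_apply]
    refine .cover (ι.comp ψ.symm.toMonoidHom) (hι.comp ψ.symm.injective) (by rw [hran]; exact hfi)
      α _ hα ?_
    intro w
    change ι (ψ.symm (ψ (φ (ψ.symm w)))) = α (ι (ψ.symm w))
    rw [MulEquiv.symm_apply_apply, hφ]

theorem constructible_conj {Z : Type} {φ : MulAut (FreeGroup Z)} (h : Constructible Z φ) :
    ∀ a : FreeGroup Z, Constructible Z (MulAut.conj a * φ) := by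
  induction h with
  | small hZ => intro a; exact .small hZ _
  | split θ α β φ g hα hβ hφX hφY =>
    intro a
    refine .split θ α β _ (a * g) hα hβ ?_ ?_
    · intro w
      rw [MulAut.mul_apply, hφX, MulAut.conj_apply]; group
    · intro w
      rw [MulAut.mul_apply, hφY, MulAut.conj_apply]; group
  | loop θ α φ g u v hα hφX hφt =>
    intro a
    refine .loop θ α _ (a * g) u v hα ?_ ?_
    · intro w
      rw [MulAut.mul_apply, hφX, MulAut.conj_apply]; group
    · rcases hφt with hφt | hφt
      · left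
        rw [MulAut.mul_apply, hφt, MulAut.conj_apply]; group
      · right
        rw [MulAut.mul_apply, hφt, MulAut.conj_apply]; group
  | push θ d p hp c β φ g hβ hβd hφ =>
    intro a
    refine .push θ d p hp c β _ (a * g) hβ hβd ?_
    intro w
    rw [MulAut.mul_apply, hφ, MulAut.conj_apply]; group
  | cover ι hι hfi α φ hα hφ ih =>
    intro a
    refine .cover ι hι hfi _ _ (ih (ι a)) ?_
    intro w
    rw [MulAut.mul_apply, MulAut.mul_apply, MulAut.conj_apply, MulAut.conj_apply, map_mul, map_mul,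
      map_inv, hφ]

/-- A bound for the level that works for all identifications. -/
theorem uniform {Z₀ Z : Type} (C : MulAut (FreeGroup Z₀) → Prop) (hC : Good Z₀ C)
    (N : Subgroup (MulAut (FreeGroup Z))) (hN : N.FiniteIndex) (hNn : N.Normal) :
    ∃ m : ℕ, ∀ θ : FreeGroup Z₀ ≃* FreeGroup Z, ∀ φ : MulAut (FreeGroup Z),
      C (MulAut.congr θ.symm φ) → φ ∈ cong (FreeGroup Z) m → φ ∈ N := by
  by_cases hex : Nonempty (FreeGroup Z₀ ≃* FreeGroup Z)
  swap
  · exact ⟨0, fun θ => absurd ⟨θ⟩ hex⟩
  obtain ⟨θ₀⟩ := hex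
  obtain ⟨m, hm⟩ := hC (N.comap (MulAut.congr θ₀).toMonoidHom) (comap_finiteIndex _ _ hN)
  refine ⟨m, fun θ φ hφ hφm => ?_⟩
  have h1 := hm _ hφ (congr_mem_cong θ.symm hφm)
  have h2 : MulAut.congr θ₀ (MulAut.congr θ.symm φ) ∈ N := h1
  let χ : MulAut (FreeGroup Z) := θ.symm.trans θ₀
  have h3 : MulAut.congr θ₀ (MulAut.congr θ.symm φ) = χ * φ * χ⁻¹ := by
    ext1 w
    rfl
  rw [h3] at h2
  have h4 := hNn.conj_mem _ h2 χ⁻¹
  have h5 : χ⁻¹ * (χ * φ * χ⁻¹) * χ⁻¹⁻¹ = φ := by group
  rwa [h5] at h4

/-- the free products -/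
def CS (k l : ℕ) (φ : MulAut (FreeGroup (Fin k ⊕ Fin l))) : Prop :=
  ∃ (α : MulAut (FreeGroup (Fin k))) (β : MulAut (FreeGroup (Fin l)))
    (g : FreeGroup (Fin k ⊕ Fin l)), Constructible (Fin k) α ∧ Constructible (Fin l) β ∧
    (∀ w, φ (FreeGroup.map Sum.inl w) = g * FreeGroup.map Sum.inl (α w) * g⁻¹) ∧
    (∀ w, φ (FreeGroup.map Sum.inr w) = g * FreeGroup.map Sum.inr (β w) * g⁻¹)

/-- the loops -/
def CL (k : ℕ) (φ : MulAut (FreeGroup (Option (Fin k)))) : Prop :=
  ∃ (α : MulAut (FreeGroup (Fin k))) (g : FreeGroup (Option (Fin k)))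
    (u v : FreeGroup (Fin k)), Constructible (Fin k) α ∧
    (∀ w, φ (FreeGroup.map some w) = g * FreeGroup.map some (α w) * g⁻¹) ∧
    (φ (FreeGroup.of none) =
      g * (FreeGroup.map some u * FreeGroup.of none * FreeGroup.map some v) * g⁻¹ ∨
    φ (FreeGroup.of none) =
      g * (FreeGroup.map some u * (FreeGroup.of none)⁻¹ * FreeGroup.map some v) * g⁻¹)

/-- the Birman extensions -/
def CP (k : ℕ) (φ : MulAut (FreeGroup (Option (Fin k)))) : Prop :=
  ∃ (d : FreeGroup (Fin k)) (p : FreeGroup (Fin k) →* MulAut (FreeGroup (Option (Fin k))))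
    (c : FreeGroup (Fin k)) (β : MulAut (FreeGroup (Fin k))) (g : FreeGroup (Option (Fin k))),
    IsPush d p ∧ Constructible (Fin k) β ∧ β d = d ∧ φ = MulAut.conj g * (p c * extO β)

theorem case_split {n : ℕ} {X Y : Type} [Nonempty X] [Nonempty Y] [Finite X] [Finite Y]
    (N : Subgroup (MulAut (FreeGroup (Fin n)))) (M : ℕ → ℕ → ℕ) (m : ℕ)
    (hM : ∀ k l : ℕ, 0 < k → 0 < l → k + l = n →
      ∀ θ : FreeGroup (Fin k ⊕ Fin l) ≃* FreeGroup (Fin n), ∀ φ : MulAut (FreeGroup (Fin n)),
      CS k l (MulAut.congr θ.symm φ) → φ ∈ cong (FreeGroup (Fin n)) (M k l) → φ ∈ N)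
    (hm : ∀ k l : ℕ, k < n → l < n → M k l ≤ m)
    (θ : FreeGroup (X ⊕ Y) ≃* FreeGroup (Fin n))
    (α : MulAut (FreeGroup X)) (β : MulAut (FreeGroup Y)) (φ : MulAut (FreeGroup (Fin n)))
    (g : FreeGroup (Fin n)) (hα : Constructible X α) (hβ : Constructible Y β)
    (hφX : ∀ w : FreeGroup X, φ (θ (FreeGroup.map Sum.inl w)) =
      g * θ (FreeGroup.map Sum.inl (α w)) * g⁻¹)
    (hφY : ∀ w : FreeGroup Y, φ (θ (FreeGroup.map Sum.inr w)) =
      g * θ (FreeGroup.map Sum.inr (β w)) * g⁻¹) (hφm : φ ∈ cong _ m) : φ ∈ N := by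
  have hcard : Nat.card X + Nat.card Y = n := by
    have h1 := Nat.card_congr (Equiv.ofFreeGroupEquiv θ)
    rw [Nat.card_sum, Nat.card_eq_fintype_card (α := Fin n), Fintype.card_fin] at h1
    exact h1
  have hXpos : 0 < Nat.card X := Nat.card_pos
  have hYpos : 0 < Nat.card Y := Nat.card_pos
  let eX : X ≃ Fin (Nat.card X) := Finite.equivFin X
  let eY : Y ≃ Fin (Nat.card Y) := Finite.equivFin Y
  let θ' : FreeGroup (Fin (Nat.card X) ⊕ Fin (Nat.card Y)) ≃* FreeGroup (Fin n) :=
    (FreeGroup.freeGroupCongr (Equiv.sumCongr eX eY)).symm.trans θ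
  refine hM (Nat.card X) (Nat.card Y) hXpos hYpos hcard θ' φ ?_ ?_
  · refine ⟨MulAut.congr (FreeGroup.freeGroupCongr eX) α,
      MulAut.congr (FreeGroup.freeGroupCongr eY) β, θ'.symm g,
      constructible_congr _ hα, constructible_congr _ hβ, ?_, ?_⟩
    · intro w
      have h1 : ∀ w : FreeGroup (Fin (Nat.card X)), θ' (FreeGroup.map Sum.inl w) =
          θ (FreeGroup.map Sum.inl (FreeGroup.map eX.symm w)) := by
        intro w
        change θ (FreeGroup.map (Equiv.sumCongr eX eY).symm (FreeGroup.map Sum.inl w)) = _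
        rw [FreeGroup.map.comp, FreeGroup.map.comp]
        rfl
      change θ'.symm (φ (θ' (FreeGroup.map Sum.inl w))) = _
      rw [h1, hφX, map_mul, map_mul, map_inv]
      congr 2
      rw [MulEquiv.symm_apply_eq, h1]
      congr 2
      change _ = FreeGroup.map eX.symm (FreeGroup.map eX (α (FreeGroup.map eX.symm w)))
      rw [FreeGroup.map.comp]
      simp
    · intro w
      have h1 : ∀ w : FreeGroup (Fin (Nat.card Y)), θ' (FreeGroup.map Sum.inr w) =
          θ (FreeGroup.map Sum.inr (FreeGroup.map eY.symm w)) := by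
        intro w
        change θ (FreeGroup.map (Equiv.sumCongr eX eY).symm (FreeGroup.map Sum.inr w)) = _
        rw [FreeGroup.map.comp, FreeGroup.map.comp]
        rfl
      change θ'.symm (φ (θ' (FreeGroup.map Sum.inr w))) = _
      rw [h1, hφY, map_mul, map_mul, map_inv]
      congr 2
      rw [MulEquiv.symm_apply_eq, h1]
      congr 2
      change _ = FreeGroup.map eY.symm (FreeGroup.map eY (β (FreeGroup.map eY.symm w)))
      rw [FreeGroup.map.comp]
      simp
  · exact cong_anti (hm _ _ (by omega) (by omega)) hφm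

theorem case_loop {n : ℕ} (hn : 0 < n) {X : Type} [Finite X]
    (N : Subgroup (MulAut (FreeGroup (Fin n)))) (m : ℕ)
    (hM : ∀ θ : FreeGroup (Option (Fin (n - 1))) ≃* FreeGroup (Fin n),
      ∀ φ : MulAut (FreeGroup (Fin n)),
      CL (n - 1) (MulAut.congr θ.symm φ) → φ ∈ cong (FreeGroup (Fin n)) m → φ ∈ N)
    (θ : FreeGroup (Option X) ≃* FreeGroup (Fin n))
    (α : MulAut (FreeGroup X)) (φ : MulAut (FreeGroup (Fin n))) (g : FreeGroup (Fin n))
    (u v : FreeGroup X) (hα : Constructible X α)
    (hφX : ∀ w : FreeGroup X, φ (θ (FreeGroup.map some w)) =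
      g * θ (FreeGroup.map some (α w)) * g⁻¹)
    (hφt : φ (θ (FreeGroup.of none)) =
        g * θ (FreeGroup.map some u * FreeGroup.of none * FreeGroup.map some v) * g⁻¹ ∨
      φ (θ (FreeGroup.of none)) =
        g * θ (FreeGroup.map some u * (FreeGroup.of none)⁻¹ * FreeGroup.map some v) * g⁻¹)
    (hφm : φ ∈ cong _ m) : φ ∈ N := by
  have hcard : Nat.card X = n - 1 := by
    have h1 := Nat.card_congr (Equiv.ofFreeGroupEquiv θ)
    rw [Finite.card_option, Nat.card_eq_fintype_card (α := Fin n), Fintype.card_fin] at h1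
    omega
  let eX : X ≃ Fin (n - 1) := Finite.equivFinOfCardEq hcard
  let θ' : FreeGroup (Option (Fin (n - 1))) ≃* FreeGroup (Fin n) :=
    (FreeGroup.freeGroupCongr (Equiv.optionCongr eX)).symm.trans θ
  have h1 : ∀ w : FreeGroup (Fin (n - 1)), θ' (FreeGroup.map some w) =
      θ (FreeGroup.map some (FreeGroup.map eX.symm w)) := by
    intro w
    change θ (FreeGroup.map (Equiv.optionCongr eX).symm (FreeGroup.map some w)) = _
    rw [FreeGroup.map.comp, FreeGroup.map.comp]
    rfl
  have h2 : θ' (FreeGroup.of none) = θ (FreeGroup.of none) := rfl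
  have h3 : ∀ w : FreeGroup X, θ (FreeGroup.map some w) =
      θ' (FreeGroup.map some (FreeGroup.map eX w)) := by
    intro w
    have h4 : FreeGroup.map eX.symm (FreeGroup.map eX w) = w := by
      rw [FreeGroup.map.comp]; simp
    rw [h1, h4]
  refine hM θ' φ ?_ hφm
  refine ⟨MulAut.congr (FreeGroup.freeGroupCongr eX) α, θ'.symm g,
    FreeGroup.map eX u, FreeGroup.map eX v, constructible_congr _ hα, ?_, ?_⟩
  · intro w
    change θ'.symm (φ (θ' (FreeGroup.map some w))) = _
    rw [h1, hφX, map_mul, map_mul, map_inv]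
    congr 2
    rw [MulEquiv.symm_apply_eq, h1]
    congr 2
    change _ = FreeGroup.map eX.symm (FreeGroup.map eX (α (FreeGroup.map eX.symm w)))
    rw [FreeGroup.map.comp]
    simp
  · rcases hφt with hφt | hφt
    · left
      change θ'.symm (φ (θ' (FreeGroup.of none))) = _
      rw [h2, hφt, map_mul, map_mul, map_inv]
      congr 2
      rw [MulEquiv.symm_apply_eq, map_mul θ', map_mul θ', ← h3, ← h3, h2, map_mul, map_mul]
    · right
      change θ'.symm (φ (θ' (FreeGroup.of none))) = _
      rw [h2, hφt, map_mul, map_mul, map_inv]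
      congr 2
      rw [MulEquiv.symm_apply_eq, map_mul θ', map_mul θ', ← h3, ← h3, map_inv, h2, map_mul,
        map_mul, map_inv]

theorem case_push {n : ℕ} (hn : 0 < n) {X : Type} [Finite X]
    (N : Subgroup (MulAut (FreeGroup (Fin n)))) (m : ℕ)
    (hM : ∀ θ : FreeGroup (Option (Fin (n - 1))) ≃* FreeGroup (Fin n),
      ∀ φ : MulAut (FreeGroup (Fin n)),
      CP (n - 1) (MulAut.congr θ.symm φ) → φ ∈ cong (FreeGroup (Fin n)) m → φ ∈ N)
    (θ : FreeGroup (Option X) ≃* FreeGroup (Fin n))
    (d : FreeGroup X) (p : FreeGroup X →* MulAut (FreeGroup (Option X))) (hp : IsPush d p)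
    (c : FreeGroup X) (β : MulAut (FreeGroup X)) (φ : MulAut (FreeGroup (Fin n)))
    (g : FreeGroup (Fin n)) (hβ : Constructible X β) (hβd : β d = d)
    (hφ : ∀ w : FreeGroup (Option X), φ (θ w) = g * θ (p c (extO β w)) * g⁻¹)
    (hφm : φ ∈ cong _ m) : φ ∈ N := by
  have hcard : Nat.card X = n - 1 := by
    have h1 := Nat.card_congr (Equiv.ofFreeGroupEquiv θ)
    rw [Finite.card_option, Nat.card_eq_fintype_card (α := Fin n), Fintype.card_fin] at h1
    omega
  let eX : X ≃ Fin (n - 1) := Finite.equivFinOfCardEq hcard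
  let θ' : FreeGroup (Option (Fin (n - 1))) ≃* FreeGroup (Fin n) := (eO eX).symm.trans θ
  refine hM θ' φ ?_ hφm
  refine ⟨_, _, FreeGroup.freeGroupCongr eX c, MulAut.congr (FreeGroup.freeGroupCongr eX) β,
    θ'.symm g, isPush_congr eX hp, constructible_congr _ hβ, ?_, ?_⟩
  · change FreeGroup.freeGroupCongr eX (β ((FreeGroup.freeGroupCongr eX).symm
      (FreeGroup.freeGroupCongr eX d))) = _
    rw [MulEquiv.symm_apply_apply, hβd]
  · ext1 w
    change θ'.symm (φ (θ ((eO eX).symm w))) = _
    rw [hφ, MulAut.mul_apply, MulAut.mul_apply, extO_congr, MulAut.conj_apply, map_mul, map_mul,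
      map_inv]
    congr 2
    change eO eX (θ.symm (θ _)) = eO eX (p ((FreeGroup.freeGroupCongr eX).symm
      (FreeGroup.freeGroupCongr eX c)) ((eO eX).symm (eO eX (extO β ((eO eX).symm w)))))
    rw [MulEquiv.symm_apply_apply, MulEquiv.symm_apply_apply, MulEquiv.symm_apply_apply]

theorem not_comm {X : Type} {n : ℕ} (hn : 2 ≤ n) (ι : FreeGroup (Fin n) →* FreeGroup X)
    (hι : Function.Injective ι) (hX : Nat.card X ≤ 1) (hfX : Finite X) : False := by
  have hsub : Subsingleton X := (Finite.card_le_one_iff_subsingleton).mp hX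
  have hcomm : ∀ x y : FreeGroup X, x * y = y * x := by
    rcases isEmpty_or_nonempty X with hE | hE
    · intro x y
      have h1 : Subsingleton (FreeGroup X) := by
        refine ⟨fun a b => ?_⟩
        have h2 : ∀ w : FreeGroup X, w = 1 := by
          intro w
          induction w using FreeGroup.induction_on with
          | C1 => rfl
          | of i => exact hE.elim i
          | inv_of i _ => exact hE.elim i
          | mul u v hu hv => rw [hu, hv, mul_one]
        rw [h2 a, h2 b]
      exact Subsingleton.elim _ _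
    · obtain ⟨x0⟩ := hE
      have hz : ∀ w : FreeGroup X, ∃ k : ℤ, w = (FreeGroup.of x0) ^ k := by
        intro w
        induction w using FreeGroup.induction_on with
        | C1 => exact ⟨0, by simp⟩
        | of i => exact ⟨1, by rw [zpow_one, Subsingleton.elim i x0]⟩
        | inv_of i ih => obtain ⟨k, hk⟩ := ih; exact ⟨-k, by rw [hk, zpow_neg]⟩
        | mul u v hu hv =>
          obtain ⟨k, hk⟩ := hu
          obtain ⟨l, hl⟩ := hv
          exact ⟨k + l, by rw [hk, hl, zpow_add]⟩
      intro x y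
      obtain ⟨k, rfl⟩ := hz x
      obtain ⟨l, rfl⟩ := hz y
      rw [← zpow_add, ← zpow_add, add_comm]
  have h1 : (FreeGroup.of (⟨0, by omega⟩ : Fin n)) * FreeGroup.of (⟨1, by omega⟩ : Fin n) =
      FreeGroup.of (⟨1, by omega⟩ : Fin n) * FreeGroup.of (⟨0, by omega⟩ : Fin n) := by
    apply hι
    rw [map_mul, map_mul]
    exact hcomm _ _
  have h2 := congrArg (FreeGroup.lift (fun z : Fin n => if z = ⟨0, by omega⟩ then
    (Equiv.swap (0 : Fin 3) 1) else Equiv.swap (1 : Fin 3) 2)) h1
  have h3 : (⟨1, by omega⟩ : Fin n) ≠ ⟨0, by omega⟩ := by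
    intro h
    have := congrArg Fin.val h
    simp at this
  rw [map_mul, map_mul, FreeGroup.lift_apply_of, FreeGroup.lift_apply_of, if_pos rfl,
    if_neg h3] at h2
  revert h2
  decide

theorem good_fin (n : ℕ) : Good (Fin n) (Constructible (Fin n)) := by
  induction n using Nat.strong_induction_on with
  | _ n ih =>
  rcases Nat.lt_or_ge n 3 with hn | hn
  · -- rank at most two
    interval_cases n
    · intro N hN
      obtain ⟨m, hm⟩ := good_zero (Fin 0) N hN
      exact ⟨m, fun φ _ h => hm φ trivial h⟩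
    · intro N hN
      obtain ⟨m, hm⟩ := good_one (Fin 1) N hN
      exact ⟨m, fun φ _ h => hm φ trivial h⟩
    · intro N hN
      obtain ⟨m, hm⟩ := csp_two N hN
      exact ⟨m, fun φ _ h => hm h⟩
  intro N hN
  have := hN
  let N₀ : Subgroup (MulAut (FreeGroup (Fin n))) := N.normalCore
  have hN₀ : N₀.FiniteIndex := inferInstance
  have hN₀n : N₀.Normal := inferInstance
  -- free products
  have hCS' : ∀ k l : ℕ, ∃ m : ℕ, 0 < k → 0 < l → k + l = n →
      ∀ θ : FreeGroup (Fin k ⊕ Fin l) ≃* FreeGroup (Fin n), ∀ φ : MulAut (FreeGroup (Fin n)),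
      CS k l (MulAut.congr θ.symm φ) → φ ∈ cong (FreeGroup (Fin n)) m → φ ∈ N₀ := by
    intro k l
    by_cases h : 0 < k ∧ 0 < l ∧ k + l = n
    · obtain ⟨hk, hl, hkl⟩ := h
      have : Nonempty (Fin k) := ⟨⟨0, hk⟩⟩
      have : Nonempty (Fin l) := ⟨⟨0, hl⟩⟩
      have h1 : Good (Fin k ⊕ Fin l) (CS k l) :=
        good_split _ _ (ih k (by omega)) (ih l (by omega))
      obtain ⟨m, hm⟩ := uniform (CS k l) h1 N₀ hN₀ hN₀n
      exact ⟨m, fun _ _ _ => hm⟩
    · exact ⟨0, fun h1 h2 h3 => absurd ⟨h1, h2, h3⟩ h⟩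
  choose M hM using hCS'
  have hne : Nonempty (Fin (n - 1)) := ⟨⟨0, by omega⟩⟩
  -- loops
  have hCL : Good (Option (Fin (n - 1))) (CL (n - 1)) :=
    good_loop _ (ih (n - 1) (by omega)) (fun a α hα => constructible_conj hα a)
  obtain ⟨mL, hmL⟩ := uniform (CL (n - 1)) hCL N₀ hN₀ hN₀n
  -- Birman extensions
  have hCP : Good (Option (Fin (n - 1))) (CP (n - 1)) :=
    good_push _ (ih (n - 1) (by omega)) (fun a α hα => constructible_conj hα a)
  obtain ⟨mP, hmP⟩ := uniform (CP (n - 1)) hCP N₀ hN₀ hN₀n
  -- covers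
  have hCD : ∀ r : ℕ, ∃ m : ℕ, 2 ≤ r → r < n →
      ∀ ι : FreeGroup (Fin n) →* FreeGroup (Fin r), Function.Injective ι → ι.range.index ≠ 0 →
      ι.range.index ≤ n → ∀ (φ : MulAut (FreeGroup (Fin n))) (α : MulAut (FreeGroup (Fin r))),
      Constructible (Fin r) α →
      (∀ w, ι (φ w) = α (ι w)) → φ ∈ cong (FreeGroup (Fin n)) m → φ ∈ N₀ := by
    intro r
    by_cases h : 2 ≤ r ∧ r < n
    · obtain ⟨m, hm⟩ := uniform_down (⟨0, by omega⟩ : Fin r) (⟨1, by omega⟩ : Fin r)
        (by intro h1; have := congrArg Fin.val h1; simp at this)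
        (Constructible (Fin r)) (ih r h.2) N₀ hN₀ hN₀n n
      exact ⟨m, fun _ _ => hm⟩
    · exact ⟨0, fun h1 h2 => absurd ⟨h1, h2⟩ h⟩
  choose D hD using hCD
  obtain ⟨m, hm⟩ : ∃ m, m = max (max mL mP) (max ((Finset.range n ×ˢ Finset.range n).sup
    fun p => M p.1 p.2) ((Finset.range n).sup D)) := ⟨_, rfl⟩
  have lL : mL ≤ m := by rw [hm]; exact (le_max_left _ _).trans (le_max_left _ _)
  have lP : mP ≤ m := by rw [hm]; exact (le_max_right _ _).trans (le_max_left _ _)
  have lM : ∀ k l, k < n → l < n → M k l ≤ m := by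
    intro k l hk hl
    rw [hm]
    refine le_trans ?_ ((le_max_left _ _).trans (le_max_right _ _))
    exact Finset.le_sup (f := fun p : ℕ × ℕ => M p.1 p.2) (b := (k, l))
      (by simp only [Finset.mem_product, Finset.mem_range]; omega)
  have lD : ∀ r, r < n → D r ≤ m := by
    intro r hr
    rw [hm]
    refine le_trans ?_ ((le_max_right _ _).trans (le_max_right _ _))
    exact Finset.le_sup (f := D) (b := r) (Finset.mem_range.mpr hr)
  have claim : ∀ {Z : Type} {φ : MulAut (FreeGroup Z)}, Constructible Z φ →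
      ∀ ψ : FreeGroup Z ≃* FreeGroup (Fin n),
      MulAut.congr ψ φ ∈ cong (FreeGroup (Fin n)) m → MulAut.congr ψ φ ∈ N₀ := by
    intro Z φ h
    induction h with
    | @small Z _ hZ φ =>
      intro ψ
      exfalso
      have h1 := Nat.card_congr (Equiv.ofFreeGroupEquiv ψ)
      rw [Nat.card_eq_fintype_card (α := Fin n), Fintype.card_fin] at h1
      omega
    | @split X Y Z hX hY θ α β φ g hα hβ hφX hφY =>
      intro ψ hφm
      have := finite_of_constructible hα
      have := finite_of_constructible hβ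
      refine case_split N₀ M m hM lM (θ.trans ψ) α β (MulAut.congr ψ φ) (ψ g) hα hβ ?_ ?_ hφm
      · intro w
        change ψ (φ (ψ.symm (ψ (θ _)))) = _
        rw [MulEquiv.symm_apply_apply, hφX, map_mul, map_mul, map_inv]
        rfl
      · intro w
        change ψ (φ (ψ.symm (ψ (θ _)))) = _
        rw [MulEquiv.symm_apply_apply, hφY, map_mul, map_mul, map_inv]
        rfl
    | @loop X Z θ α φ g u v hα hφX hφt =>
      intro ψ hφm
      have := finite_of_constructible hα
      refine case_loop (by omega) N₀ m (fun θ φ h1 h2 => hmL θ φ h1 (cong_anti lL h2))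
        (θ.trans ψ) α (MulAut.congr ψ φ) (ψ g) u v hα ?_ ?_ hφm
      · intro w
        change ψ (φ (ψ.symm (ψ (θ _)))) = _
        rw [MulEquiv.symm_apply_apply, hφX, map_mul, map_mul, map_inv]
        rfl
      · rcases hφt with hφt | hφt
        · left
          change ψ (φ (ψ.symm (ψ (θ _)))) = _
          rw [MulEquiv.symm_apply_apply, hφt, map_mul, map_mul, map_inv]
          rfl
        · right
          change ψ (φ (ψ.symm (ψ (θ _)))) = _
          rw [MulEquiv.symm_apply_apply, hφt, map_mul, map_mul, map_inv]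
          rfl
    | @push X Z θ d p hp c β φ g hβ hβd hφ =>
      intro ψ hφm
      have := finite_of_constructible hβ
      refine case_push (by omega) N₀ m (fun θ φ h1 h2 => hmP θ φ h1 (cong_anti lP h2))
        (θ.trans ψ) d p hp c β (MulAut.congr ψ φ) (ψ g) hβ hβd ?_ hφm
      intro w
      change ψ (φ (ψ.symm (ψ (θ _)))) = _
      rw [MulEquiv.symm_apply_apply, hφ, map_mul, map_mul, map_inv]
      rfl
    | @cover X Z hZfin ι hι hfi α φ hα hφ ihα =>
      intro ψ hφm
      have hXfin := finite_of_constructible hα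
      have hZcard : Nat.card Z = n := by
        have h1 := Nat.card_congr (Equiv.ofFreeGroupEquiv ψ)
        rw [Nat.card_eq_fintype_card (α := Fin n), Fintype.card_fin] at h1
        exact h1
      have hsch := schreier_le ι hfi
      rw [hZcard] at hsch
      have hidx0 := hfi.index_ne_zero
      have hX2 : 2 ≤ Nat.card X := by
        by_contra hlt
        exact not_comm (n := n) (by omega) (ι.comp ψ.symm.toMonoidHom)
          (hι.comp ψ.symm.injective) (by omega) hXfin
      by_cases h1 : ι.range.index = 1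
      · -- index one
        have hsurj : Function.Surjective ι := by
          rw [← MonoidHom.range_eq_top]
          exact Subgroup.index_eq_one.mp h1
        let e : FreeGroup Z ≃* FreeGroup X := MulEquiv.ofBijective ι ⟨hι, hsurj⟩
        have he : ∀ w, e w = ι w := fun w => rfl
        have h2 : MulAut.congr (e.symm.trans ψ) α = MulAut.congr ψ φ := by
          ext1 w
          change ψ (e.symm (α (e (ψ.symm w)))) = ψ (φ (ψ.symm w))
          congr 1
          rw [MulEquiv.symm_apply_eq, he, he, hφ]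
        rw [← h2] at hφm ⊢
        exact ihα _ hφm
      · -- index at least two
        obtain ⟨dd, hdd⟩ : ∃ dd, dd = ι.range.index := ⟨_, rfl⟩
        rw [← hdd] at hsch h1 hidx0
        have hd2 : 2 ≤ dd := by omega
        obtain ⟨r, hr⟩ : ∃ r, r = Nat.card X := ⟨_, rfl⟩
        rw [← hr] at hsch hX2
        have hrn : r < n := by
          have h3 : 2 * (r - 1) ≤ dd * (r - 1) := Nat.mul_le_mul_right _ hd2
          have h4 : r * dd = dd * (r - 1) + dd := by
            obtain ⟨q, rfl⟩ : ∃ q, r = q + 1 := ⟨r - 1, by omega⟩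
            simp only [Nat.add_sub_cancel]
            ring
          omega
        have hdn : dd ≤ n := by
          have h3 : dd * 1 ≤ dd * (r - 1) := Nat.mul_le_mul_left _ (by omega)
          have h4 : r * dd = dd * (r - 1) + dd := by
            obtain ⟨q, rfl⟩ : ∃ q, r = q + 1 := ⟨r - 1, by omega⟩
            simp only [Nat.add_sub_cancel]
            ring
          omega
        let e : X ≃ Fin r := Finite.equivFinOfCardEq hr.symm
        let E : FreeGroup X ≃* FreeGroup (Fin r) := FreeGroup.freeGroupCongr e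
        let ι' : FreeGroup (Fin n) →* FreeGroup (Fin r) :=
          E.toMonoidHom.comp (ι.comp ψ.symm.toMonoidHom)
        have hι' : ∀ w, ι' w = E (ι (ψ.symm w)) := fun w => rfl
        have hι'inj : Function.Injective ι' := E.injective.comp (hι.comp ψ.symm.injective)
        have hran : ι'.range = ι.range.map E.toMonoidHom := by
          ext x
          constructor
          · rintro ⟨w, rfl⟩
            exact ⟨ι (ψ.symm w), ⟨_, rfl⟩, rfl⟩
          · rintro ⟨_, ⟨w, rfl⟩, rfl⟩
            refine ⟨ψ w, ?_⟩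
            rw [hι', MulEquiv.symm_apply_apply]
            rfl
        have hidx : ι'.range.index = dd := by
          rw [hran, hdd]
          exact Subgroup.index_map_equiv _ E
        refine hD r hX2 hrn ι' hι'inj (by rw [hidx]; exact hidx0) (by rw [hidx]; exact hdn)
          (MulAut.congr ψ φ) (MulAut.congr E α) (constructible_congr _ hα) ?_
          (cong_anti (lD r hrn) hφm)
        intro w
        rw [hι', hι']
        change E (ι (ψ.symm (ψ (φ (ψ.symm w))))) = E (α (E.symm (E (ι (ψ.symm w)))))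
        rw [MulEquiv.symm_apply_apply, MulEquiv.symm_apply_apply, hφ]
  refine ⟨m, fun φ hφ hφm => N.normalCore_le ?_⟩
  have h1 : MulAut.congr (MulEquiv.refl (FreeGroup (Fin n))) φ = φ := by
    ext1 w
    rfl
  have h2 := claim hφ (MulEquiv.refl _)
  rw [h1] at h2
  exact h2 hφm

/-- **Main theorem.** For every subgroup `N` of finite index in `Aut F_n` containing the inner
automorphisms there is a characteristic subgroup `K` of finite index in `F_n` such that `N` contains
every constructible automorphism of `F_n` that acts on `F_n / K` as an inner automorphism. -/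
theorem result (n : ℕ) (N : Subgroup (MulAut (FreeGroup (Fin n)))) (hN : N.FiniteIndex)
    (hinn : ∀ g : FreeGroup (Fin n), MulAut.conj g ∈ N) :
    ∃ K : Subgroup (FreeGroup (Fin n)), K.Characteristic ∧ K.FiniteIndex ∧
      ∀ φ : MulAut (FreeGroup (Fin n)), Constructible (Fin n) φ → φ ∈ congr K → φ ∈ N := by
  obtain ⟨m, hm⟩ := good_fin n N hN
  refine ⟨L (FreeGroup (Fin n)) m, inferInstance, inferInstance, ?_⟩
  rintro φ hφ ⟨g, hg⟩
  have h1 : MulAut.conj g⁻¹ * φ ∈ N := by
    refine hm _ (constructible_conj hφ g⁻¹) ?_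
    rw [mem_cong]
    intro x
    rw [MulAut.mul_apply, MulAut.conj_apply]
    have h2 := (L_normal m).conj_mem _ (hg x) g⁻¹
    have h3 : g⁻¹ * (φ x * (g * x * g⁻¹)⁻¹) * g⁻¹⁻¹ = g⁻¹ * φ x * g⁻¹⁻¹ * x⁻¹ := by group
    rwa [h3] at h2
  have h2 : φ = MulAut.conj g * (MulAut.conj g⁻¹ * φ) := by
    rw [← mul_assoc, ← map_mul, mul_inv_cancel, map_one, one_mul]
  rw [h2]
  exact mul_mem (hinn g) h1

end Pool.Agent.Results.MP_181555_al.ConstructibleCongruence
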