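import Pool.Agent.AbSub.Main

set_option autoImplicit false

namespace Pool.Agent.Results.MP_181555_al.SolvableSubgroups

/-- The inner automorphisms of the free group of rank `n`. -/
def Inn (n : ℕ) : Subgroup (MulAut (FreeGroup (Fin n))) :=
  (MulAut.conj : FreeGroup (Fin n) →* MulAut (FreeGroup (Fin n))).range

instance (n : ℕ) : (Inn n).Normal := Pool.Agent.AbSub.Inn_normal n

/-- The group `Out F_n = Aut F_n / Inn F_n`. -/
abbrev Out (n : ℕ) := MulAut (FreeGroup (Fin n)) ⧸ Inn n

/-- The automorphisms of the free group `F` that act on `F / K` as an inner automorphism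
(for a characteristic subgroup `K` this is the preimage in `Aut F` of the kernel of
`Out F → Out (F / K)`). -/
def congr {n : ℕ} (K : Subgroup (FreeGroup (Fin n))) : Set (MulAut (FreeGroup (Fin n))) :=
  {ψ | ∃ g : FreeGroup (Fin n), ∀ x : FreeGroup (Fin n), ψ x * (g * x * g⁻¹)⁻¹ ∈ K}

/-- Let `Γ` be a finitely generated virtually abelian subgroup of `Out F_n` (`B` is a commutative
subgroup of finite index of `Γ`).
(1) Every subgroup of finite index `C` of `Γ` contains, for some characteristic subgroup `K` of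
finite index of `F_n`, all elements of `Γ` acting on `F_n / K` as an inner automorphism.
(2) For every `φ` outside `Γ` there is such a `K` for which `φ` does not agree with an element of
`Γ` modulo the elements acting on `F_n / K` as an inner automorphism. -/
theorem result (n : ℕ) (Γ B : Subgroup (Out n)) (hΓ : Γ.FG) (hB : B ≤ Γ)
    (hfi : (B.subgroupOf Γ).FiniteIndex) (hab : ∀ a ∈ B, ∀ b ∈ B, a * b = b * a) :
    (∀ C ≤ Γ, (C.subgroupOf Γ).FiniteIndex →
      ∃ K : Subgroup (FreeGroup (Fin n)), K.Characteristic ∧ K.FiniteIndex ∧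
        ∀ ψ ∈ congr K, (ψ : Out n) ∈ Γ → (ψ : Out n) ∈ C) ∧
    ∀ φ : MulAut (FreeGroup (Fin n)), (φ : Out n) ∉ Γ →
      ∃ K : Subgroup (FreeGroup (Fin n)), K.Characteristic ∧ K.FiniteIndex ∧
        ∀ ψ : MulAut (FreeGroup (Fin n)), (ψ : Out n) ∈ Γ → φ * ψ⁻¹ ∉ congr K :=
  Pool.Agent.AbSub.main n Γ B hΓ hB hfi hab

end Pool.Agent.Results.MP_181555_al.SolvableSubgroups
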